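import Pool.Agent.helper5.DH.Spec

set_option autoImplicit false

open Complex Metric Set Filter Topology MeasureTheory Pool.Agent.helper98.ILF Pool.Agent.helper16.Multibrot
open HY (UD T S hd UN RM VV SG Orb fz)

noncomputable section

namespace DH

/-- a level of the tower is a setting `SG`. -/
theorem TSG (hVKB : HY.VKB_stmt) : TSG_stmt := by
  intro n c Φ b hT k
  obtain ⟨-, -, -, -, -, -, -, hsub, hpre, -⟩ := hVKB n c hT.hn hT.hc
  refine ⟨hT.hn, hT.rm k, ?_, ?_, hT.hb k, hT.hbc k, hT.rel k⟩
  · rw [← hpre k]; exact hT.rm (k + 1)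
  · rw [← hpre k]; exact hsub k

end DH
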